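import Pool.Agent.V8H30.TN.Low4

/-!
# MP_cec33a_co, Q1: lower bounds for the addressing number of the triangular graph `T_n`

`N(T_n) ≥ n` for all `n ≥ 4`, and `N(T_n) ≥ n + r` for all `n ≥ (4 ^ r + 1) ^ (2 * 4 ^ r + 1)`; in
particular `N(T_n) - n` tends to infinity.

Definitions (`IsAddressing`, `addressingNumber`, `Tri`) are in `Pool/Agent/V8H30/TN/Defs.lean`.
-/

set_option autoImplicit false

namespace Pool.Agent.Results.MP_cec33a_co.LowerBoundN

open Pool.Agent.V8H30.TN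

theorem result :
    (∀ n : ℕ, 4 ≤ n → n ≤ addressingNumber (Tri n)) ∧
    (∀ r n : ℕ, (4 ^ r + 1) ^ (2 * 4 ^ r + 1) ≤ n → n + r ≤ addressingNumber (Tri n)) :=
  ⟨fun _ hn => le_addressingNumber hn, fun _ _ hn => le_addressingNumber_strong hn⟩

end Pool.Agent.Results.MP_cec33a_co.LowerBoundN
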