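import Pool.Agent.V8H30.TN.Dist

/-!
# MP_cec33a_co, Q1: the triangular graph `T_n` has an addressing of length `⌈3 n / 2⌉`

Definitions (`IsAddressing`, `addressingNumber`, `Tri`) are in `Pool/Agent/V8H30/TN/Defs.lean`.
Note `(3 * n + 1) / 2 = ⌈3 n / 2⌉`.
-/

set_option autoImplicit false

namespace Pool.Agent.Results.MP_cec33a_co.ThreeHalvesAddressing

open Pool.Agent.V8H30.TN

theorem result :
    (∀ n : ℕ, ∃ a : {e : Finset (Fin n) // e.card = 2} → Fin ((3 * n + 1) / 2) → Option Bool,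
      IsAddressing (Tri n) ((3 * n + 1) / 2) a) ∧
    (∀ n : ℕ, addressingNumber (Tri n) ≤ (3 * n + 1) / 2) :=
  ⟨exists_addressing, addressingNumber_le⟩

end Pool.Agent.Results.MP_cec33a_co.ThreeHalvesAddressing
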